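import Pool.Agent.H634R2.Clique
import Pool.Agent.NPC.Dec

/-!
# The unweighted red-blue `s`-`t` cut problem in undirected graphs is NP-complete

Input: a finite undirected graph whose edges are red or blue, two vertices `s ≠ t`, and numbers
`r`, `b`.  Question: is there an `s`-`t` cut with at most `r` red and at most `b` blue edges?

Idea.  Let a graph with the set `V` of vertices and the set `E` of edges and a number `k` be given.
Take the vertices `s`, `t`, all `v ∈ V`, and one vertex `w_e` for every `e ∈ E`.  There is a red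
edge from `t` to every `v ∈ V`.  For `e = uv ∈ E` there are three blue edges, from `w_e` to `s`, to
`u` and to `v`.  Let `X` be a set of vertices with `s ∈ X`, `t ∉ X` and `U = X ∩ V`.  Its cut
contains `|U|` red edges.  The three blue edges for `e = uv` contribute at least `1` unless both `u`
and `v` are in `U`, and this is attained if `w_e ∈ X` exactly for the edges `e` with an end in `U`.  So with
`r = k` and `b = |E| - (k choose 2)` there is such a cut iff there is a set `U` of at most `k`
vertices with at least `k choose 2` edges inside, i.e. a clique of size `k`.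
-/

set_option autoImplicit false

namespace Pool.Agent.NPC.RedBlue161

open Pool.Agent.NPC.H634R2

/-- A coloured edge: its two ends, and its colour (`true` is red, `false` is blue). -/
abbrev CEdge : Type := (ℕ × ℕ) × Bool

/-- An edge-coloured graph, given by the list of its vertices and the list of its edges. -/
abbrev CGraph : Type := List ℕ × List CEdge

/-- An input: an edge-coloured graph `G`, two vertices `s` and `t`, and the two bounds `r` and `b`,
as `((G, (s, t)), (r, b))`. -/
abbrev Inst : Type := (CGraph × (ℕ × ℕ)) × (ℕ × ℕ)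

/-- The lists describe a graph: every vertex is listed once, and the ends of every edge are
vertices.  Loops and parallel edges are allowed. -/
def IsCGraph (G : CGraph) : Prop := G.1.Nodup ∧ ∀ e ∈ G.2, e.1.1 ∈ G.1 ∧ e.1.2 ∈ G.1

/-- There are no loops, and no two edges with the same ends. -/
def IsSimple (G : CGraph) : Prop :=
  (∀ e ∈ G.2, e.1.1 ≠ e.1.2) ∧ (G.2.map (fun e => s(e.1.1, e.1.2))).Nodup

/-- A correct input: the lists describe a graph, and `s` and `t` are two different vertices. -/
def Valid (I : Inst) : Prop :=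
  IsCGraph I.1.1 ∧ I.1.2.1 ∈ I.1.1.1 ∧ I.1.2.2 ∈ I.1.1.1 ∧ I.1.2.1 ≠ I.1.2.2

/-- The edge `e` has colour `c`, and exactly one of its two ends is in `X`. -/
def crosses (X : Finset ℕ) (c : Bool) (e : CEdge) : Bool :=
  decide (e.2 = c) && (decide (e.1.1 ∈ X) ^^ decide (e.1.2 ∈ X))

/-- The number of edges of colour `c` in the cut `δ(X)`. -/
def cutSize (G : CGraph) (c : Bool) (X : Finset ℕ) : ℕ := G.2.countP (crosses X c)

/-- **The unweighted red-blue `s`-`t` cut problem in undirected graphs**: the cut `δ(X)` of some set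
`X` of vertices with `s ∈ X` and `t ∉ X` contains at most `r` red and at most `b` blue edges. -/
def RedBlueCut (I : Inst) : Prop :=
  Valid I ∧ ∃ X : Finset ℕ, X ⊆ I.1.1.1.toFinset ∧ I.1.2.1 ∈ X ∧ I.1.2.2 ∉ X ∧
    cutSize I.1.1 true X ≤ I.2.1 ∧ cutSize I.1.1 false X ≤ I.2.2

/-! ### The reduction -/

/-- the vertices of the graph: `s` is `0` and `t` is `1` -/
def verts (V : List ℕ) (E : List (ℕ × ℕ)) : List ℕ :=
  0 :: 1 :: (V.map (fun v => 4 * v + 2) ++ (List.range E.length).map (fun j => 4 * j + 3))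

/-- the red edges -/
def redE (V : List ℕ) : List CEdge := V.map fun v => ((4 * v + 2, 1), true)

/-- the three blue edges for an edge -/
def gad (p : (ℕ × ℕ) × ℕ) : List CEdge :=
  [((4 * p.2 + 3, 0), false), ((4 * p.2 + 3, 4 * p.1.1 + 2), false),
    ((4 * p.2 + 3, 4 * p.1.2 + 2), false)]

/-- the blue edges -/
def blueE (E : List (ℕ × ℕ)) : List CEdge := E.zipIdx.flatMap gad

/-- the edges of the graph -/
def edges (V : List ℕ) (E : List (ℕ × ℕ)) : List CEdge := redE V ++ blueE E

section
variable {V : List ℕ} {E : List (ℕ × ℕ)}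

theorem mem_verts {x : ℕ} : x ∈ verts V E ↔ x = 0 ∨ x = 1 ∨
    (∃ v ∈ V, x = 4 * v + 2) ∨ ∃ j < E.length, x = 4 * j + 3 := by
  simp only [verts, List.mem_cons, List.mem_append, List.mem_map, List.mem_range, eq_comm]

theorem verts_nodup (hV : V.Nodup) : (verts V E).Nodup := by
  unfold verts
  have h2 : (V.map (fun v => 4 * v + 2) ++ (List.range E.length).map (fun j => 4 * j + 3)).Nodup := by
    refine List.Nodup.append ?_ ?_ ?_
    · exact List.Nodup.map (fun a b h => by omega) hV
    · exact List.Nodup.map (fun a b h => by omega) List.nodup_range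
    · intro x h1 h2
      simp only [List.mem_map] at h1 h2
      obtain ⟨a, _, h1⟩ := h1
      obtain ⟨b, _, h2⟩ := h2
      omega
  rw [List.nodup_cons, List.nodup_cons]
  refine ⟨?_, ?_, h2⟩
  · simp only [List.mem_cons, List.mem_append, List.mem_map, List.mem_range, not_or, not_exists,
      not_and]
    refine ⟨by omega, ?_, ?_⟩ <;> intro x _ <;> omega
  · simp only [List.mem_append, List.mem_map, List.mem_range, not_or, not_exists, not_and]
    constructor <;> intro x _ <;> omega

theorem mem_redE {a : CEdge} : a ∈ redE V ↔ ∃ v ∈ V, a = ((4 * v + 2, 1), true) := by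
  simp only [redE, List.mem_map, eq_comm]

theorem mem_zipIdx {p : (ℕ × ℕ) × ℕ} (hp : p ∈ E.zipIdx) : p.1 ∈ E ∧ p.2 < E.length ∧
    E[p.2]? = some p.1 := by
  rw [List.mem_zipIdx_iff_getElem?] at hp
  exact ⟨List.mem_of_getElem? hp, (List.getElem?_eq_some_iff.1 hp).1, hp⟩

theorem mem_blueE {a : CEdge} : a ∈ blueE E ↔ ∃ p ∈ E.zipIdx, a = ((4 * p.2 + 3, 0), false) ∨
    a = ((4 * p.2 + 3, 4 * p.1.1 + 2), false) ∨ a = ((4 * p.2 + 3, 4 * p.1.2 + 2), false) := by
  simp only [blueE, gad, List.mem_flatMap, List.mem_cons, List.not_mem_nil, or_false]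

theorem mem_edges {a : CEdge} : a ∈ edges V E ↔ a ∈ redE V ∨ a ∈ blueE E := by
  simp only [edges, List.mem_append]

theorem isCGraph (h : IsGraph V E) : IsCGraph (verts V E, edges V E) := by
  refine ⟨verts_nodup h.1, ?_⟩
  intro a ha
  simp only
  rcases mem_edges.1 ha with h1 | h1
  · obtain ⟨v, hv, rfl⟩ := mem_redE.1 h1
    exact ⟨mem_verts.2 (Or.inr (Or.inr (Or.inl ⟨v, hv, rfl⟩))), mem_verts.2 (Or.inr (Or.inl rfl))⟩
  · obtain ⟨p, hp, h2⟩ := mem_blueE.1 h1
    obtain ⟨h3, h4, _⟩ := mem_zipIdx hp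
    have h5 := h.2.1 p.1 h3
    have h6 : 4 * p.2 + 3 ∈ verts V E := mem_verts.2 (Or.inr (Or.inr (Or.inr ⟨p.2, h4, rfl⟩)))
    rcases h2 with rfl | rfl | rfl
    · exact ⟨h6, mem_verts.2 (Or.inl rfl)⟩
    · exact ⟨h6, mem_verts.2 (Or.inr (Or.inr (Or.inl ⟨_, h5.1, rfl⟩)))⟩
    · exact ⟨h6, mem_verts.2 (Or.inr (Or.inr (Or.inl ⟨_, h5.2.1, rfl⟩)))⟩

theorem edges_ne {a : CEdge} (ha : a ∈ edges V E) : a.1.1 ≠ a.1.2 := by
  rcases mem_edges.1 ha with h1 | h1
  · obtain ⟨v, hv, rfl⟩ := mem_redE.1 h1
    simp only; omega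
  · obtain ⟨p, hp, rfl | rfl | rfl⟩ := mem_blueE.1 h1 <;> simp only <;> omega

theorem nodup_zipIdx (E : List (ℕ × ℕ)) : (E.zipIdx.map Prod.snd).Nodup := by
  have : E.zipIdx.map Prod.snd = List.range E.length := by
    apply List.ext_getElem
    · simp
    · intro i h1 h2; simp
  rw [this]
  exact List.nodup_range

theorem edges_nodup (h : IsGraph V E) :
    ((edges V E).map (fun e => s(e.1.1, e.1.2))).Nodup := by
  unfold edges
  rw [List.map_append]
  refine List.Nodup.append ?_ ?_ ?_
  · unfold redE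
    rw [List.map_map]
    refine List.Nodup.map (fun a b h => ?_) h.1
    simp only [Function.comp_apply, Sym2.eq_iff] at h
    omega
  · unfold blueE
    rw [List.map_flatMap, List.nodup_flatMap]
    constructor
    · intro p hp
      have h5 := (h.2.1 p.1 (mem_zipIdx hp).1).2.2
      simp only [gad, List.map_cons, List.map_nil, List.nodup_cons, List.mem_cons,
        List.not_mem_nil, or_false, Sym2.eq_iff, List.nodup_nil, not_false_eq_true, and_true]
      omega
    · have h6 : List.Pairwise (fun a b : (ℕ × ℕ) × ℕ => a.2 ≠ b.2) E.zipIdx := by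
        have := nodup_zipIdx E
        rw [List.Nodup, List.pairwise_map] at this
        exact this
      refine List.Pairwise.imp ?_ h6
      intro a b hab x h1 h2
      simp only [gad, List.map_cons, List.map_nil, List.mem_cons, List.not_mem_nil,
        or_false] at h1 h2
      rcases h1 with rfl | rfl | rfl <;> rcases h2 with h2 | h2 | h2 <;>
        simp only [Sym2.eq_iff] at h2 <;> omega
  · intro x h1 h2
    simp only [List.mem_map] at h1 h2
    obtain ⟨a, ha, rfl⟩ := h1
    obtain ⟨b, hb, h2⟩ := h2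
    obtain ⟨v, hv, rfl⟩ := mem_redE.1 ha
    obtain ⟨p, hp, rfl | rfl | rfl⟩ := mem_blueE.1 hb <;> simp only [Sym2.eq_iff] at h2 <;> omega

theorem isSimple (h : IsGraph V E) : IsSimple (verts V E, edges V E) :=
  ⟨fun _ ha => edges_ne ha, edges_nodup h⟩

/-! ### Counting -/

theorem sum_le_countP {α : Type} (g : α → ℕ) (q : α → Bool) (L : List α)
    (h : ∀ x ∈ L, g x ≤ if q x then 1 else 0) : (L.map g).sum ≤ L.countP q := by
  induction L with
  | nil => simp
  | cons a L ih =>
    rw [List.map_cons, List.sum_cons, List.countP_cons]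
    have h1 := ih fun x hx => h x (List.mem_cons_of_mem _ hx)
    have h2 := h a List.mem_cons_self
    omega

theorem countP_le_sum {α : Type} (g : α → ℕ) (q : α → Bool) (L : List α)
    (h : ∀ x ∈ L, (if q x then 1 else 0) ≤ g x) : L.countP q ≤ (L.map g).sum := by
  induction L with
  | nil => simp
  | cons a L ih =>
    rw [List.map_cons, List.sum_cons, List.countP_cons]
    have h1 := ih fun x hx => h x (List.mem_cons_of_mem _ hx)
    have h2 := h a List.mem_cons_self
    omega

theorem countP_zipIdx (q : ℕ × ℕ → Bool) (E : List (ℕ × ℕ)) :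
    E.zipIdx.countP (fun p => q p.1) = E.countP q := by
  have h : E.zipIdx.map Prod.fst = E := by
    apply List.ext_getElem
    · simp
    · intro i h1 h2; simp
  conv_rhs => rw [← h, List.countP_map]
  rfl

/-- The number of red edges in a cut. -/
theorem red_count (X : Finset ℕ) (h1 : 1 ∉ X) :
    cutSize (verts V E, edges V E) true X = V.countP (fun v => decide (4 * v + 2 ∈ X)) := by
  unfold cutSize edges
  simp only
  rw [List.countP_append]
  have h2 : (blueE E).countP (crosses X true) = 0 := by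
    rw [List.countP_eq_zero]
    intro a ha
    obtain ⟨p, hp, rfl | rfl | rfl⟩ := mem_blueE.1 ha <;> simp [crosses]
  rw [h2, redE, List.countP_map, add_zero]
  apply List.countP_congr
  intro v _
  simp [crosses, h1]

/-- The number of blue edges in a cut. -/
theorem blue_count (X : Finset ℕ) : cutSize (verts V E, edges V E) false X =
    (E.zipIdx.map (fun p => (gad p).countP (crosses X false))).sum := by
  unfold cutSize edges
  simp only
  rw [List.countP_append]
  have h2 : (redE V).countP (crosses X false) = 0 := by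
    rw [List.countP_eq_zero]
    intro a ha
    obtain ⟨v, hv, rfl⟩ := mem_redE.1 ha
    simp [crosses]
  rw [h2, zero_add, blueE, List.countP_flatMap]
  rfl

/-- The correctness of the reduction. -/
theorem clique_iff (h : IsGraph V E) {k : ℕ} (hk : 2 ≤ k) (hm : k.choose 2 ≤ E.length) :
    HasClique V E k ↔
      RedBlueCut (((verts V E, edges V E), (0, 1)), (k, E.length - k.choose 2)) := by
  classical
  rw [hasClique_iff h hk]
  have hsplit : ∀ U : Finset ℕ, E.length = inside E U +
      E.countP (fun e => !(decide (e.1 ∈ U) && decide (e.2 ∈ U))) := by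
    intro U
    unfold inside
    rw [List.length_eq_countP_add_countP (fun e => decide (e.1 ∈ U) && decide (e.2 ∈ U))]
    congr 1
    apply List.countP_congr
    intro e _
    simp
  constructor
  · rintro ⟨U, hUV, hcard, hU⟩
    obtain ⟨X, hX⟩ : ∃ X : Finset ℕ, X = (verts V E).toFinset.filter (fun x => x = 0 ∨
        (x % 4 = 2 ∧ x / 4 ∈ U) ∨
        (x % 4 = 3 ∧ ((E.getD (x / 4) (0, 0)).1 ∈ U ∨ (E.getD (x / 4) (0, 0)).2 ∈ U))) := ⟨_, rfl⟩
    have m0 : (0 : ℕ) ∈ X := by
      rw [hX, Finset.mem_filter, List.mem_toFinset]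
      exact ⟨mem_verts.2 (Or.inl rfl), Or.inl rfl⟩
    have n1 : (1 : ℕ) ∉ X := by
      rw [hX, Finset.mem_filter]
      rintro ⟨_, h1 | h1 | h1⟩ <;> omega
    have m1 : ∀ v ∈ V, (4 * v + 2 ∈ X ↔ v ∈ U) := by
      intro v hv
      rw [hX, Finset.mem_filter, List.mem_toFinset]
      have e1 : (4 * v + 2) / 4 = v := by omega
      rw [e1]
      constructor
      · rintro ⟨_, h6 | h6 | h6⟩
        · omega
        · exact h6.2
        · omega
      · intro h6
        exact ⟨mem_verts.2 (Or.inr (Or.inr (Or.inl ⟨v, hv, rfl⟩))), Or.inr (Or.inl ⟨by omega, h6⟩)⟩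
    have m2 : ∀ p ∈ E.zipIdx, (4 * p.2 + 3 ∈ X ↔ p.1.1 ∈ U ∨ p.1.2 ∈ U) := by
      intro p hp
      obtain ⟨h3, h4, h4'⟩ := mem_zipIdx hp
      have e0 : E.getD p.2 (0, 0) = p.1 := by
        rw [List.getD_eq_getElem?_getD, h4', Option.getD_some]
      rw [hX, Finset.mem_filter, List.mem_toFinset]
      have e1 : (4 * p.2 + 3) / 4 = p.2 := by omega
      rw [e1, e0]
      constructor
      · rintro ⟨_, h6 | h6 | h6⟩
        · omega
        · omega
        · exact h6.2
      · intro h6
        exact ⟨mem_verts.2 (Or.inr (Or.inr (Or.inr ⟨p.2, h4, rfl⟩))), Or.inr (Or.inr ⟨by omega, h6⟩)⟩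
    have hXs : X ⊆ (verts V E).toFinset := by
      rw [hX]
      exact Finset.filter_subset _ _
    clear hX
    refine ⟨⟨isCGraph h, mem_verts.2 (Or.inl rfl), mem_verts.2 (Or.inr (Or.inl rfl)), by simp⟩,
      X, hXs, m0, n1, ?_, ?_⟩
    · rw [red_count X n1]
      simp only
      rw [List.countP_eq_length_filter, ← List.toFinset_card_of_nodup (h.1.filter _)]
      refine le_trans (Finset.card_le_card ?_) hcard
      intro v hv
      simp only [List.mem_toFinset, List.mem_filter, decide_eq_true_eq] at hv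
      exact (m1 v hv.1).1 hv.2
    · rw [blue_count]
      simp only
      refine le_trans (sum_le_countP _ (fun p => !(decide (p.1.1 ∈ U) && decide (p.1.2 ∈ U))) _ ?_) ?_
      · intro p hp
        have h5 := h.2.1 p.1 (mem_zipIdx hp).1
        have m3 := m1 _ h5.1
        have m4 := m1 _ h5.2.1
        have m5 := m2 p hp
        by_cases c1 : p.1.1 ∈ U <;> by_cases c2 : p.1.2 ∈ U <;>
          simp [gad, crosses, m0, m3, m4, m5, c1, c2]
      · rw [countP_zipIdx (fun e => !(decide (e.1 ∈ U) && decide (e.2 ∈ U)))]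
        have := hsplit U
        omega
  · rintro ⟨_, X, hXs, h0, h1, hred, hblue⟩
    simp only at hXs h0 h1 hred hblue
    rw [red_count X h1] at hred
    rw [blue_count] at hblue
    refine ⟨V.toFinset.filter (fun v => 4 * v + 2 ∈ X), ?_, ?_, ?_⟩
    · intro v hv
      rw [Finset.mem_filter, List.mem_toFinset] at hv
      exact hv.1
    · refine le_trans (le_of_eq ?_) hred
      rw [List.countP_eq_length_filter, ← List.toFinset_card_of_nodup (h.1.filter _)]
      congr 1
      ext v
      simp
    · have h3 := countP_le_sum (fun p => (gad p).countP (crosses X false))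
        (fun p => !(decide (p.1.1 ∈ V.toFinset.filter (fun v => 4 * v + 2 ∈ X)) &&
          decide (p.1.2 ∈ V.toFinset.filter (fun v => 4 * v + 2 ∈ X)))) E.zipIdx ?_
      · rw [countP_zipIdx (fun e => !(decide (e.1 ∈ V.toFinset.filter (fun v => 4 * v + 2 ∈ X)) &&
          decide (e.2 ∈ V.toFinset.filter (fun v => 4 * v + 2 ∈ X))))] at h3
        have := hsplit (V.toFinset.filter (fun v => 4 * v + 2 ∈ X))
        omega
      · intro p hp
        obtain ⟨h4, _, _⟩ := mem_zipIdx hp
        have h5 := h.2.1 p.1 h4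
        by_cases c1 : 4 * p.1.1 + 2 ∈ X <;> by_cases c2 : 4 * p.1.2 + 2 ∈ X <;>
          by_cases c3 : 4 * p.2 + 3 ∈ X <;>
          simp [gad, crosses, h0, c1, c2, c3, h5.1, h5.2.1]

end

/-! ### Polynomial time -/

section poly
variable {α : Type} [TEnc α] {V : α → List ℕ} {E : α → List (ℕ × ℕ)}

theorem poly_lin {n : α → ℕ} (hn : Poly n) (c : ℕ) : Poly (fun a => 4 * n a + c) :=
  Poly.add (Poly.mul (Poly.const 4) hn) (Poly.const c)

theorem poly_verts (hV : Poly V) (hE : Poly E) : Poly (fun a => verts (V a) (E a)) := by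
  refine Poly.cons (Poly.const 0) (Poly.cons (Poly.const 1) (Poly.append
    (Poly.map (F := fun _ i => 4 * i + 2) hV (poly_lin (Poly.snd Poly.id) 2))
    (Poly.map (F := fun _ i => 4 * i + 3) (Poly.range_length hE) (poly_lin (Poly.snd Poly.id) 3))))

theorem poly_edges (hV : Poly V) (hE : Poly E) : Poly (fun a => edges (V a) (E a)) := by
  refine Poly.append ?_ ?_
  · exact Poly.map (F := fun _ (v : ℕ) => ((4 * v + 2, 1), true)) hV
      (Poly.pair (Poly.pair (poly_lin (Poly.snd Poly.id) 2) (Poly.const 1)) (Poly.const true))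
  · refine Poly.flatMap (F := fun _ (p : (ℕ × ℕ) × ℕ) => gad p) (Poly.zipIdx hE) ?_
    have hw : Poly (fun q : α × ((ℕ × ℕ) × ℕ) => 4 * q.2.2 + 3) :=
      poly_lin (Poly.snd (Poly.snd Poly.id)) 3
    have hu : Poly (fun q : α × ((ℕ × ℕ) × ℕ) => 4 * q.2.1.1 + 2) :=
      poly_lin (Poly.fst (Poly.fst (Poly.snd Poly.id))) 2
    have hv : Poly (fun q : α × ((ℕ × ℕ) × ℕ) => 4 * q.2.1.2 + 2) :=
      poly_lin (Poly.snd (Poly.fst (Poly.snd Poly.id))) 2
    exact Poly.cons (Poly.pair (Poly.pair hw (Poly.const 0)) (Poly.const false))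
      (Poly.cons (Poly.pair (Poly.pair hw hu) (Poly.const false))
        (Poly.cons (Poly.pair (Poly.pair hw hv) (Poly.const false)) (Poly.const [])))

end poly

/-- an instance without solution -/
def noInst : Inst := ((([0, 1], [((0, 1), true)]), (0, 1)), (0, 0))

/-- All red edges are incident with `t`. -/
def RedStar (I : Inst) : Prop := ∀ e ∈ I.1.1.2, e.2 = true → e.1.2 = I.1.2.2

theorem noInst_valid : Valid noInst ∧ IsSimple noInst.1.1 ∧ RedStar noInst := by
  refine ⟨⟨⟨by simp [noInst], by simp [noInst]⟩, by simp [noInst], by simp [noInst],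
    by simp [noInst]⟩, ⟨by simp [noInst], by simp [noInst]⟩, by simp [RedStar, noInst]⟩

theorem not_noInst : ¬ RedBlueCut noInst := by
  rintro ⟨_, X, _, h0, h1, hred, _⟩
  have h0' : (0 : ℕ) ∈ X := h0
  have h1' : (1 : ℕ) ∉ X := h1
  have hred' : cutSize noInst.1.1 true X ≤ 0 := hred
  simp [cutSize, noInst, crosses, h0', h1'] at hred'

theorem redStar {V : List ℕ} {E : List (ℕ × ℕ)} (r : ℕ × ℕ) :
    RedStar (((verts V E, edges V E), (0, 1)), r) := by
  intro e he hc
  rcases mem_edges.1 he with h1 | h1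
  · obtain ⟨v, hv, rfl⟩ := mem_redE.1 h1
    rfl
  · obtain ⟨p, hp, rfl | rfl | rfl⟩ := mem_blueE.1 h1 <;> simp at hc

/-- The reduction from the clique problem. -/
def red (I : (List ℕ × List (ℕ × ℕ)) × ℕ) : Inst :=
  if I.2 * (I.2 - 1) / 2 ≤ I.1.2.length then
    (((verts I.1.1 I.1.2, edges I.1.1 I.1.2), (0, 1)), (I.2, I.1.2.length - I.2 * (I.2 - 1) / 2))
  else noInst

theorem poly_red : Poly red := by
  have hc : Poly (fun I : (List ℕ × List (ℕ × ℕ)) × ℕ => I.2 * (I.2 - 1) / 2) :=
    Poly.div (Poly.mul (Poly.snd Poly.id) (Poly.sub (Poly.snd Poly.id) (Poly.const 1)))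
      (Poly.const 2)
  have hV : Poly (fun I : (List ℕ × List (ℕ × ℕ)) × ℕ => I.1.1) := Poly.fst (Poly.fst Poly.id)
  have hE : Poly (fun I : (List ℕ × List (ℕ × ℕ)) × ℕ => I.1.2) := Poly.snd (Poly.fst Poly.id)
  exact Poly.ite (Poly.decide_le hc (Poly.length hE)) (Poly.pair (Poly.pair (Poly.pair
    (poly_verts hV hE) (poly_edges hV hE)) (Poly.const (0, 1))) (Poly.pair (Poly.snd Poly.id)
    (Poly.sub (Poly.length hE) hc))) (Poly.const _)

theorem hardPr_redBlueCut :
    HardPr (fun I : Inst => Valid I ∧ IsSimple I.1.1 ∧ RedStar I) RedBlueCut := by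
  refine hardPr_CLIQUE.trans poly_red ?_ ?_
  · rintro ⟨⟨V, E⟩, k⟩ ⟨h, _⟩
    unfold red
    split_ifs with hc
    · exact ⟨⟨isCGraph h, mem_verts.2 (Or.inl rfl), mem_verts.2 (Or.inr (Or.inl rfl)), by simp⟩,
        isSimple h, redStar _⟩
    · exact noInst_valid
  · rintro ⟨⟨V, E⟩, k⟩ ⟨h, hk⟩
    simp only at h hk
    have hcl : CLIQUE ((V, E), k) ↔ HasClique V E k := ⟨fun h' => h'.2, fun h' => ⟨h, h'⟩⟩
    rw [hcl]
    unfold red
    simp only
    rw [← Nat.choose_two_right]
    split_ifs with hc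
    · exact clique_iff h hk hc
    · refine ⟨fun h' => absurd ?_ hc, fun h' => absurd h' not_noInst⟩
      obtain ⟨U, _, _, hU⟩ := (hasClique_iff h hk).1 h'
      exact hU.trans List.countP_le_length

/-! ### Membership in `NP` -/

/-- the test for repetitions -/
def nodupB (l : List ℕ) : Bool :=
  (List.range l.length).all fun i => (List.range l.length).all fun j =>
    decide (i = j) || !decide (l.getD i 0 = l.getD j 0)

theorem nodupB_iff {l : List ℕ} : nodupB l = true ↔ l.Nodup := by
  unfold nodupB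
  rw [List.nodup_iff_injective_getElem]
  simp only [List.all_eq_true, List.mem_range, Bool.or_eq_true, decide_eq_true_eq,
    Bool.not_eq_true', decide_eq_false_iff_not]
  constructor
  · intro h i j hij
    rcases h i i.2 j j.2 with h1 | h1
    · exact Fin.ext h1
    · rw [List.getD_eq_getElem _ _ i.2, List.getD_eq_getElem _ _ j.2] at h1
      exact absurd hij h1
  · intro h i hi j hj
    by_cases hij : i = j
    · exact Or.inl hij
    · right
      rw [List.getD_eq_getElem _ _ hi, List.getD_eq_getElem _ _ hj]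
      intro he
      have := @h ⟨i, hi⟩ ⟨j, hj⟩ he
      simp only [Fin.mk.injEq] at this
      exact hij this

theorem poly_nodupB {α : Type} [TEnc α] {l : α → List ℕ} (hl : Poly l) :
    Poly (fun a => nodupB (l a)) := by
  refine Poly.all (p := fun a i => (List.range (l a).length).all fun j =>
    decide (i = j) || !decide ((l a).getD i 0 = (l a).getD j 0)) (Poly.range_length hl) ?_
  refine Poly.all (p := fun (p : α × ℕ) j =>
    decide (p.2 = j) || !decide ((l p.1).getD p.2 0 = (l p.1).getD j 0))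
    (Poly.range_length (hl.comp (Poly.fst Poly.id))) ?_
  have h1 : Poly (fun p : (α × ℕ) × ℕ => p.1.2) := Poly.snd (Poly.fst Poly.id)
  have h2 : Poly (fun p : (α × ℕ) × ℕ => p.2) := Poly.snd Poly.id
  have h3 : Poly (fun p : (α × ℕ) × ℕ => l p.1.1) := hl.comp (Poly.fst (Poly.fst Poly.id))
  exact Poly.or (Poly.decide_eq h1 h2) (Poly.not (Poly.decide_eq (Poly.getD h3 h1 (Poly.const 0))
    (Poly.getD h3 h2 (Poly.const 0))))

/-- the edge `e` of colour `c` crosses the listed set -/
def crossesL (w : List ℕ) (c : Bool) (e : CEdge) : Bool :=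
  decide (e.2 = c) && ((decide (e.1.1 ∈ w) && !decide (e.1.2 ∈ w)) ||
    (!decide (e.1.1 ∈ w) && decide (e.1.2 ∈ w)))

/-- the test of certificates: a list of the vertices in the set -/
def check (p : Inst × List ℕ) : Bool :=
  nodupB p.1.1.1.1 && (p.1.1.1.2.all (fun a => decide (a.1.1 ∈ p.1.1.1.1) &&
    decide (a.1.2 ∈ p.1.1.1.1)) && (decide (p.1.1.2.1 ∈ p.1.1.1.1) &&
    (decide (p.1.1.2.2 ∈ p.1.1.1.1) && (!decide (p.1.1.2.1 = p.1.1.2.2) &&
    (p.2.all (fun v => decide (v ∈ p.1.1.1.1)) && (decide (p.1.1.2.1 ∈ p.2) &&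
      (!decide (p.1.1.2.2 ∈ p.2) &&
        (decide ((p.1.1.1.2.filter (crossesL p.2 true)).length ≤ p.1.2.1) &&
          decide ((p.1.1.1.2.filter (crossesL p.2 false)).length ≤ p.1.2.2)))))))))

theorem poly_check : Poly check := by
  have hV : Poly (fun p : Inst × List ℕ => p.1.1.1.1) :=
    Poly.fst (Poly.fst (Poly.fst (Poly.fst Poly.id)))
  have hA : Poly (fun p : Inst × List ℕ => p.1.1.1.2) :=
    Poly.snd (Poly.fst (Poly.fst (Poly.fst Poly.id)))
  have hs : Poly (fun p : Inst × List ℕ => p.1.1.2.1) :=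
    Poly.fst (Poly.snd (Poly.fst (Poly.fst Poly.id)))
  have ht : Poly (fun p : Inst × List ℕ => p.1.1.2.2) :=
    Poly.snd (Poly.snd (Poly.fst (Poly.fst Poly.id)))
  have hw : Poly (fun p : Inst × List ℕ => p.2) := Poly.snd Poly.id
  have hl : ∀ c : Bool, Poly (fun p : Inst × List ℕ =>
      (p.1.1.1.2.filter (crossesL p.2 c)).length) := by
    intro c
    refine Poly.length (Poly.filter (p := fun p a => crossesL p.2 c a) hA ?_)
    have h1 : Poly (fun q : (Inst × List ℕ) × CEdge => q.1.2) := hw.comp (Poly.fst Poly.id)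
    have h2 : Poly (fun q : (Inst × List ℕ) × CEdge => q.2) := Poly.snd Poly.id
    have h3 := Poly.decide_mem (Poly.fst (Poly.fst h2)) h1
    have h4 := Poly.decide_mem (Poly.snd (Poly.fst h2)) h1
    exact Poly.and (Poly.decide_eq (Poly.snd h2) (Poly.const c))
      (Poly.or (Poly.and h3 (Poly.not h4)) (Poly.and (Poly.not h3) h4))
  refine Poly.and (poly_nodupB hV) (Poly.and ?_ (Poly.and (Poly.decide_mem hs hV) (Poly.and
    (Poly.decide_mem ht hV) (Poly.and (Poly.not (Poly.decide_eq hs ht)) (Poly.and ?_ (Poly.and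
    (Poly.decide_mem hs hw) (Poly.and (Poly.not (Poly.decide_mem ht hw)) (Poly.and
      (Poly.decide_le (hl true) (Poly.fst (Poly.snd (Poly.fst Poly.id))))
      (Poly.decide_le (hl false) (Poly.snd (Poly.snd (Poly.fst Poly.id)))))))))))) 
  · refine Poly.all (p := fun (p : Inst × List ℕ) a => decide (a.1.1 ∈ p.1.1.1.1) &&
      decide (a.1.2 ∈ p.1.1.1.1)) hA ?_
    have h1 : Poly (fun q : (Inst × List ℕ) × CEdge => q.1.1.1.1.1) := hV.comp (Poly.fst Poly.id)
    have h2 : Poly (fun q : (Inst × List ℕ) × CEdge => q.2) := Poly.snd Poly.id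
    exact Poly.and (Poly.decide_mem (Poly.fst (Poly.fst h2)) h1)
      (Poly.decide_mem (Poly.snd (Poly.fst h2)) h1)
  · exact Poly.all (p := fun (p : Inst × List ℕ) v => decide (v ∈ p.1.1.1.1)) hw
      (Poly.decide_mem (Poly.snd Poly.id) (hV.comp (Poly.fst Poly.id)))

theorem sz_filter_le {β : Type} [TEnc β] (p : β → Bool) (l : List β) : sz (l.filter p) ≤ sz l := by
  induction l with
  | nil => simp
  | cons b l ih =>
    cases h : p b
    · rw [List.filter_cons_of_neg (by simpa using h)]
      simp only [sz_list_cons]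
      omega
    · rw [List.filter_cons_of_pos h]
      simp only [sz_list_cons]
      omega

theorem crossesL_eq (w : List ℕ) (c : Bool) : crossesL w c = crosses w.toFinset c := by
  funext a
  by_cases h1 : a.1.1 ∈ w <;> by_cases h2 : a.1.2 ∈ w <;> simp [crossesL, crosses, h1, h2]

theorem check_iff (I : Inst) (w : List ℕ) : check (I, w) = true ↔ Valid I ∧
    w.toFinset ⊆ I.1.1.1.toFinset ∧ I.1.2.1 ∈ w.toFinset ∧ I.1.2.2 ∉ w.toFinset ∧
    cutSize I.1.1 true w.toFinset ≤ I.2.1 ∧ cutSize I.1.1 false w.toFinset ≤ I.2.2 := by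
  unfold check
  simp only [Bool.and_eq_true, nodupB_iff, decide_eq_true_eq, crossesL_eq,
    ← List.countP_eq_length_filter, Bool.not_eq_true', decide_eq_false_iff_not]
  have h1 : (I.1.1.2.all fun a => decide (a.1.1 ∈ I.1.1.1) && decide (a.1.2 ∈ I.1.1.1)) = true ↔
      ∀ a ∈ I.1.1.2, a.1.1 ∈ I.1.1.1 ∧ a.1.2 ∈ I.1.1.1 := by
    simp only [List.all_eq_true, Bool.and_eq_true, decide_eq_true_eq]
  have h3 : (w.all fun v => decide (v ∈ I.1.1.1)) = true ↔ w.toFinset ⊆ I.1.1.1.toFinset := by
    simp only [List.all_eq_true, decide_eq_true_eq]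
    constructor
    · intro h4 x hx
      exact List.mem_toFinset.2 (h4 x (List.mem_toFinset.1 hx))
    · intro h4 x hx
      exact List.mem_toFinset.1 (h4 (List.mem_toFinset.2 hx))
  unfold Valid IsCGraph cutSize
  rw [h1, h3, List.mem_toFinset, List.mem_toFinset]
  tauto

theorem inNP : InNPP RedBlueCut := by
  refine inNPP_of poly_check Polynomial.X fun I => ?_
  constructor
  · rintro ⟨hD, X, hX, hs, ht, hr, hb⟩
    refine ⟨I.1.1.1.filter (fun v => decide (v ∈ X)), ?_, ?_⟩
    · have h1 := sz_filter_le (fun v => decide (v ∈ X)) I.1.1.1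
      have h2 : sz I.1.1.1 ≤ sz I := by
        obtain ⟨⟨⟨V, A⟩, st⟩, r⟩ := I
        simp only [sz_pair]
        omega
      simpa using h1.trans h2
    · rw [check_iff]
      have h1 : (I.1.1.1.filter (fun v => decide (v ∈ X))).toFinset = X := by
        ext v
        simp only [List.mem_toFinset, List.mem_filter, decide_eq_true_eq]
        exact ⟨fun h => h.2, fun h => ⟨List.mem_toFinset.1 (hX h), h⟩⟩
      rw [h1]
      exact ⟨hD, hX, hs, ht, hr, hb⟩
  · rintro ⟨w, _, hw⟩
    rw [check_iff] at hw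
    exact ⟨hw.1, w.toFinset, hw.2⟩

end Pool.Agent.NPC.RedBlue161

namespace Pool.Agent.Results.MP_ad21dd_lc.UndirectedCutNPComplete

open Pool.Agent.NPC Pool.Agent.NPC.RedBlue161

/-- **The unweighted red-blue `s`-`t` cut problem in undirected graphs is NP-complete.** (1) It is
in `NP`. (2) Every language in `NP` has a polynomial-time many-one reduction to it all of whose
values are correct inputs with a simple graph in which all red edges are incident with `t`.
(3) There is a polynomial-time algorithm which decides it for all correct inputs if and only if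
`P = NP`. -/
theorem result : InNPP RedBlueCut ∧
    (∀ L : Set (List Bool), InNP L → ∃ f : List Bool → Inst, PolyTime (fun x => bits (f x)) ∧
      (∀ x, Valid (f x) ∧ IsSimple (f x).1.1 ∧ RedStar (f x)) ∧
      ∀ x, x ∈ L ↔ RedBlueCut (f x)) ∧
    ((∃ A : List Bool → List Bool, PolyTime A ∧
      ∀ I : Inst, Valid I → (A (bits I) = [true] ↔ RedBlueCut I)) ↔
      ∀ L : Set (List Bool), InNP L → InP L) := by
  have hard : ∀ L : Set (List Bool), InNP L → ∃ f : List Bool → Inst,
      PolyTime (fun x => bits (f x)) ∧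
      (∀ x, Valid (f x) ∧ IsSimple (f x).1.1 ∧ RedStar (f x)) ∧
      ∀ x, x ∈ L ↔ RedBlueCut (f x) := by
    intro L hL
    obtain ⟨f, hf, hpr, hfL⟩ := hardPr_redBlueCut L hL
    exact ⟨f, PC.toPolyTime hf, hpr, hfL⟩
  refine ⟨inNP, hard, ?_, ?_⟩
  · rintro ⟨A, hA, h⟩ L hL
    obtain ⟨f, hf, hpr, hfL⟩ := hard L hL
    exact ⟨fun x => A (bits (f x)), H642R2.TMSim.polyTime_comp hA hf, fun x =>
      (hfL x).trans (h (f x) (hpr x).1).symm⟩
  · intro h
    obtain ⟨A, hA, hA'⟩ := h _ inNP
    exact ⟨A, hA, fun I _ => by rw [← hA', bits_mem_lang]⟩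

end Pool.Agent.Results.MP_ad21dd_lc.UndirectedCutNPComplete
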